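import Pool.Agent.X22.RC

/-!
# Quotients of Dedekind zeta functions: bounds of GRH strength for the fields of almost all members of arbitrarily thin linear systems of polynomials over number fields

Nothing is used besides Mathlib in the statement.
-/

set_option autoImplicit false

namespace Pool.Agent.Results.MP_9fc8a5_nt.FewDigitFields

open Finset NumberField IsDedekindDomain Module Polynomial

/-- The number of the zeros modulo the prime `v` of the polynomial `f + m_1 g_1 + ... + m_d g_d`. -/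
noncomputable def rootCount {F : Type} [Field F] [NumberField F] {d : ℕ} (f : (𝓞 F)[X]) (g : Fin d → (𝓞 F)[X]) (m : Fin d → ℕ)
    (v : HeightOneSpectrum (𝓞 F)) : ℕ :=
  Nat.card {t : 𝓞 F ⧸ v.asIdeal // (f + ∑ l, (m l : (𝓞 F)[X]) * g l).eval₂ (Ideal.Quotient.mk v.asIdeal) t = 0}

/-- The prime `v` is good for `f, g_1, ..., g_d`: these polynomials have no common zero modulo `v`, and not all of `g_1, ..., g_d` vanish modulo `v`. -/
def Good {F : Type} [Field F] [NumberField F] {d : ℕ} (f : (𝓞 F)[X]) (g : Fin d → (𝓞 F)[X]) (v : HeightOneSpectrum (𝓞 F)) : Prop :=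
  (∀ t : 𝓞 F ⧸ v.asIdeal, f.eval₂ (Ideal.Quotient.mk v.asIdeal) t = 0 → ∃ l, (g l).eval₂ (Ideal.Quotient.mk v.asIdeal) t ≠ 0) ∧
    ∃ l, (g l).map (Ideal.Quotient.mk v.asIdeal) ≠ 0

/-- The sum `∑ w (v) (N_v - 1) (N v) ^ (- i τ)` over the good primes `v` of `F` not above `2` with `N v ≤ x`; here `N_v` is the number of the zeros of `f + m_1 g_1 + ... + m_d g_d` modulo `v`. If
`f + m_1 g_1 + ... + m_d g_d` is the minimal polynomial of a generator of an extension `L` of `F`, then `N_v - 1` is for all but finitely many `v` the coefficient of `(N v) ^ (-s)` in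
the Dirichlet series of `ζ_L (s) / ζ_F (s)` from the prime `v`. -/
noncomputable def partialSum {F : Type} [Field F] [NumberField F] {d : ℕ} (f : (𝓞 F)[X]) (g : Fin d → (𝓞 F)[X]) (m : Fin d → ℕ)
    (w : HeightOneSpectrum (𝓞 F) → ℂ) (τ : ℝ) (x : ℕ) : ℂ :=
  ∑ᶠ v ∈ {v : HeightOneSpectrum (𝓞 F) | (Ideal.absNorm v.asIdeal ≤ x ∧ (2 : 𝓞 F) ∉ v.asIdeal) ∧ Good f g v},
    w v * ((rootCount f g m v : ℂ) - 1) * Complex.exp (((-(τ * Real.log (Ideal.absNorm v.asIdeal)) : ℝ) : ℂ) * Complex.I)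

/-- The digit number `i` (counted from the right, beginning with `0`) of `n` in base `b`. -/
def digit (b i n : ℕ) : ℕ := n / b ^ i % b

/-- The number which arises from the number `N` with at most `K` digits in base `b`, if for every `i ∈ S`
the digit number `i` is replaced by `f i`. -/
def change (b K N : ℕ) (f : ℕ → ℕ) (S : Finset ℕ) : ℕ :=
  ∑ i ∈ range K, (if i ∈ S then f i else digit b i N) * b ^ i

open Classical in
/-- The number of the choices of `s l` of `K l` positions for all `l < d` for which the vector of the numbers obtained by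
changing the digits of the `N l` at the chosen positions (according to `f l`) does not have the property `E`. -/
noncomputable def exceptions {d : ℕ} (b : ℕ) (K s N : Fin d → ℕ) (f : Fin d → ℕ → ℕ) (E : (Fin d → ℕ) → Prop) : ℕ :=
  ((Fintype.piFinset (fun l => powersetCard (s l) (range (K l)))).filter
    (fun S => ¬ E (fun l => change b (K l) (N l) (f l) (S l)))).card

open Pool.Agent.X22.ND (op mem_op mzd_law absorb hp norm_hp mean_mono cardop_le sum_inv_sqrt)
open Pool.Agent.X22.NF (pr mem_pr splitC card_fiber_le)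
open Pool.Agent.TH894.NE (mean mean_mul mean_const)

lemma mean_lin (d p : ℕ) (hp : 1 ≤ p) {ι : Type} (S : Finset ι) (c : ι → ℝ) (X : ι → (Fin d → ℕ) → ℝ) :
    mean d p (fun m => ∑ v ∈ S, c v * (X v m - 1)) = ∑ v ∈ S, c v * (mean d p (X v) - 1) := by
  classical
  induction S using Finset.induction_on with
  | empty =>
    simp only [sum_empty]
    exact mean_const d p hp 0
  | insert a S ha ih =>
    simp only [sum_insert ha]
    rw [Pool.Agent.X22.ND.mean_add', ih]
    congr 1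
    rw [mean_mul]
    congr 1
    have e : (fun m => X a m - 1) = fun m => X a m + (-1 : ℝ) := by
      funext m
      ring
    rw [e, Pool.Agent.X22.ND.mean_add', mean_const d p hp]
    ring

open Classical in
/-- the sum over the primes above `p` of degree one -/
noncomputable def Zp {F : Type} [Field F] [NumberField F] {d : ℕ} (f : (𝓞 F)[X]) (g : Fin d → (𝓞 F)[X]) (w : HeightOneSpectrum (𝓞 F) → ℂ) (x p : ℕ)
    (m : Fin d → ℕ) : ℂ :=
  ∑ v ∈ ((pr F x).filter (fun v => Ideal.absNorm v.asIdeal = p)).filter (fun v => Good f g v), w v * ((rootCount f g m v : ℂ) - 1)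

section
variable {F : Type} [Field F] [NumberField F] {d : ℕ} (n : ℕ) (f : (𝓞 F)[X]) (g : Fin d → (𝓞 F)[X]) (w : HeightOneSpectrum (𝓞 F) → ℂ)

lemma Zp_mod (x p : ℕ) (hp' : p.Prime) (m : Fin d → ℕ) : Zp f g w x p m = Zp f g w x p (fun l => m l % p) := by
  classical
  unfold Zp
  apply sum_congr rfl
  intro v hv
  rw [mem_filter, mem_filter] at hv
  have := Pool.Agent.X22.RC.rootCount_mod v p hp' hv.1.2 f g m
  have e : rootCount f g m v = rootCount f g (fun l => m l % p) v := this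
  rw [e]

open Classical in
lemma card_le (hF : finrank ℚ F ≤ n) (x p : ℕ) (hp' : p.Prime) :
    (((pr F x).filter (fun v => Ideal.absNorm v.asIdeal = p)).filter (fun v => Good f g v)).card ≤ n :=
  (card_filter_le _ _).trans ((card_fiber_le x p hp').trans hF)

lemma term_le (hf : f.Monic) (hn : f.natDegree ≤ n) (hg : ∀ l, (g l).natDegree < f.natDegree) (hw : ∀ v, ‖w v‖ ≤ 1) (m : Fin d → ℕ)
    (v : HeightOneSpectrum (𝓞 F)) : ‖w v * ((rootCount f g m v : ℂ) - 1)‖ ≤ n + 1 := by
  have h1 : rootCount f g m v ≤ n := Pool.Agent.X22.RC.rootCount_le n f g m hf hn hg v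
  have h2 : (rootCount f g m v : ℝ) ≤ n := by exact_mod_cast h1
  rw [norm_mul]
  have h3 : ‖(rootCount f g m v : ℂ) - 1‖ ≤ n + 1 := by
    refine (norm_sub_le _ _).trans ?_
    rw [norm_one, Complex.norm_natCast]
    linarith
  calc ‖w v‖ * ‖(rootCount f g m v : ℂ) - 1‖ ≤ 1 * (n + 1) := by
        gcongr
        exact hw v
    _ = n + 1 := one_mul _

lemma Zp_le (hF : finrank ℚ F ≤ n) (hf : f.Monic) (hn : f.natDegree ≤ n) (hg : ∀ l, (g l).natDegree < f.natDegree) (hw : ∀ v, ‖w v‖ ≤ 1)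
    (x p : ℕ) (hp' : p.Prime) (m : Fin d → ℕ) : ‖Zp f g w x p m‖ ≤ n * (n + 1) := by
  classical
  unfold Zp
  refine (norm_sum_le _ _).trans ?_
  refine (sum_le_sum (fun v _ => term_le n f g w hf hn hg hw m v)).trans ?_
  rw [sum_const, nsmul_eq_mul]
  apply mul_le_mul_of_nonneg_right _ (by positivity)
  have := card_le n f g hF x p hp'
  exact_mod_cast this

lemma Zp_mean (hF : finrank ℚ F ≤ n) (hf : f.Monic) (hn : f.natDegree ≤ n) (hg : ∀ l, (g l).natDegree < f.natDegree) (hw : ∀ v, ‖w v‖ ≤ 1)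
    (x p : ℕ) (hp' : p.Prime) : |mean d p (fun m => (Zp f g w x p m).re)| ≤ (n : ℝ) * n / p ∧ |mean d p (fun m => (Zp f g w x p m).im)| ≤ (n : ℝ) * n / p := by
  classical
  have hp0 : (0 : ℝ) < p := by exact_mod_cast hp'.pos
  obtain ⟨S, hS⟩ : ∃ S, S = ((pr F x).filter (fun v => Ideal.absNorm v.asIdeal = p)).filter (fun v => Good f g v) := ⟨_, rfl⟩
  have hSc : (S.card : ℝ) ≤ n := by
    have := card_le n f g hF x p hp'
    rw [hS]
    exact_mod_cast this
  have hmr : ∀ v ∈ S, |mean d p (fun m => (rootCount f g m v : ℝ)) - 1| ≤ n / p := by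
    intro v hv
    rw [hS, mem_filter, mem_filter] at hv
    exact Pool.Agent.X22.RC.mean_root v p hp' hv.1.2 n f g (fun l => (hg l).le.trans hn) hv.2
  have key : ∀ c : HeightOneSpectrum (𝓞 F) → ℝ, (∀ v, |c v| ≤ 1) →
      |mean d p (fun m => ∑ v ∈ S, c v * ((rootCount f g m v : ℝ) - 1))| ≤ (n : ℝ) * n / p := by
    intro c hc
    rw [mean_lin d p hp'.one_lt.le S c (fun v m => (rootCount f g m v : ℝ))]
    refine (abs_sum_le_sum_abs _ _).trans ?_
    have h1 : ∀ v ∈ S, |c v * (mean d p (fun m => (rootCount f g m v : ℝ)) - 1)| ≤ n / p := by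
      intro v hv
      rw [abs_mul]
      calc |c v| * |mean d p (fun m => (rootCount f g m v : ℝ)) - 1| ≤ 1 * (n / p) := by
            have := hc v
            have := hmr v hv
            gcongr
        _ = n / p := one_mul _
    refine (sum_le_sum h1).trans ?_
    rw [sum_const, nsmul_eq_mul, mul_div_assoc]
    gcongr
  constructor
  · have e : (fun m => (Zp f g w x p m).re) = fun m => ∑ v ∈ S, (w v).re * ((rootCount f g m v : ℝ) - 1) := by
      funext m
      unfold Zp
      rw [← hS, Complex.re_sum]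
      apply sum_congr rfl
      intro v _
      have e2 : ((rootCount f g m v : ℂ) - 1) = (((rootCount f g m v : ℝ) - 1 : ℝ) : ℂ) := by
        push_cast
        rfl
      rw [e2, Complex.re_mul_ofReal]
    rw [e]
    exact key _ (fun v => (Complex.abs_re_le_norm _).trans (hw v))
  · have e : (fun m => (Zp f g w x p m).im) = fun m => ∑ v ∈ S, (w v).im * ((rootCount f g m v : ℝ) - 1) := by
      funext m
      unfold Zp
      rw [← hS, Complex.im_sum]
      apply sum_congr rfl
      intro v _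
      have e2 : ((rootCount f g m v : ℂ) - 1) = (((rootCount f g m v : ℝ) - 1 : ℝ) : ℂ) := by
        push_cast
        rfl
      rw [e2, Complex.im_mul_ofReal]
    rw [e]
    exact key _ (fun v => (Complex.abs_im_le_norm _).trans (hw v))

end

/-- **Quotients of Dedekind zeta functions in thin families.** Let a base `b ≥ 2`, integers `d ≥ 1`, `n ≥ 0`, `A ≥ 0` and `δ > 0` be given. There are
`c > 0` and `y₀` such that for all integers `r_l`, `K_l` (`l = 1, ..., d`), `y` with `2 r_l ≤ K_l` and `y ≥ y₀` the following holds.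

Let `0 ≤ N_l < b ^ K_l` be arbitrary integers, prescribe for every position `j` a digit `a l j` different from the digit of
`N_l` in base `b`, and let `Λ x` be for every `x` any set of at most `x ^ A` systems `(F; f, g_1, ..., g_d; w)` of a number field `F` of degree at most `n`, a monic polynomial `f` with
coefficients in the ring of integers of `F` and of degree at most `n`, polynomials `g_l` of smaller degrees, and a function `w` with `|w (v)| ≤ 1` on the primes of `F`.
If one chooses `r_l` of the `K_l` positions and replaces the digits of `N_l` at these positions, then for all but at most a proportion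
`1 / y ^ A` of the choices the vector `m` obtained has the following property: for all integers `x` with
`y ≤ x ≤ exp (c r_l)` for all `l`, all systems from `Λ x` and all real `τ` with `|τ| ≤ x ^ A` we have
`|∑ w (v) (N_v - 1) (N v) ^ (- i τ)| ≤ x ^ (1 / 2 + δ)`, where the sum runs over the good primes `v` of `F` not above `2` with `N v ≤ x`, and `N_v` is the number of the zeros of
`f + m_1 g_1 + ... + m_d g_d` modulo `v`. -/
theorem result (b d n : ℕ) (hb : 2 ≤ b) (hd : 1 ≤ d) (δ : ℝ) (hδ : 0 < δ) (A : ℕ) :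
    ∃ c : ℝ, 0 < c ∧ ∃ y₀ : ℕ,
    ∀ (K r : Fin d → ℕ) (y : ℕ), (∀ l, 2 * r l ≤ K l) → y₀ ≤ y →
    ∀ N : Fin d → ℕ, (∀ l, N l < b ^ K l) → ∀ a : Fin d → ℕ → ℕ, (∀ l j, a l j < b ∧ a l j ≠ digit b j (N l)) →
    ∀ (κ : Type) (F : κ → Type) [∀ i, Field (F i)] [∀ i, NumberField (F i)] (f : ∀ i, (𝓞 (F i))[X]) (g : ∀ i, Fin d → (𝓞 (F i))[X])
      (w : ∀ i, HeightOneSpectrum (𝓞 (F i)) → ℂ) (Λ : ℕ → Finset κ),
      (∀ i, (f i).Monic ∧ (f i).natDegree ≤ n ∧ ∀ l, (g i l).natDegree < (f i).natDegree) → (∀ i v, ‖w i v‖ ≤ 1) →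
      (∀ x, (Λ x).card ≤ x ^ A) → (∀ i, finrank ℚ (F i) ≤ n) →
      (exceptions b K r N a (fun m => ∀ x : ℕ, y ≤ x → (∀ l, (x : ℝ) ≤ Real.exp (c * r l)) → ∀ i ∈ Λ x,
        ∀ τ : ℝ, |τ| ≤ (x : ℝ) ^ A → ‖partialSum (f i) (g i) m (w i) τ x‖ ≤ (x : ℝ) ^ (1 / 2 + δ)) : ℝ) ≤
        1 / (y : ℝ) ^ A * ∏ l, ((K l).choose (r l) : ℝ) := by
  classical
  obtain ⟨c, hc, y₀, h⟩ := mzd_law b d hb hd (δ / 2) (by positivity) A A A
  obtain ⟨x₁, hx₁⟩ := absorb (4 * ((n : ℝ) + 1) ^ 2 + 2 * n * (n + 1)) (δ / 2) (by positivity) (by positivity)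
  refine ⟨c, hc, y₀ + x₁ + 2, fun K r y hrK hy N hN a ha κ F iF iN f g w Λ hfg hw hΛ hF => ?_⟩
  have hn0 : (0 : ℝ) ≤ n := Nat.cast_nonneg n
  have h2 := h K r y hrK (by omega) N hN a ha κ Λ (fun x _ => hΛ x)
    (fun x i p m => Zp (f i) (g i) (w i) x p m) (fun x i p m hp' => Zp_mod (f i) (g i) (w i) x p hp' m)
    (fun x _ => 4 * ((n : ℝ) + 1) ^ 2 * Real.sqrt x) (fun x _ i _ => by positivity) ?_ ?_ ?_
    (fun m => ∀ x : ℕ, y ≤ x → (∀ l, (x : ℝ) ≤ Real.exp (c * r l)) → ∀ i ∈ Λ x,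
        ∀ τ : ℝ, |τ| ≤ (x : ℝ) ^ A → ‖partialSum (f i) (g i) m (w i) τ x‖ ≤ (x : ℝ) ^ (1 / 2 + δ)) ?_
  · unfold exceptions
    exact h2
  · -- the bound
    intro x hx i _ p hp' m
    rw [mem_op] at hp'
    refine (Zp_le n (f i) (g i) (w i) (hF i) (hfg i).1 (hfg i).2.1 (hfg i).2.2 (hw i) x p hp'.2.1 m).trans ?_
    have hs : 1 ≤ Real.sqrt x := by
      rw [Real.one_le_sqrt]
      exact_mod_cast (by omega : 1 ≤ x)
    nlinarith [mul_nonneg (sq_nonneg ((n : ℝ) + 1)) (sub_nonneg.2 hs)]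
  · -- the means
    intro x hx i _
    have h3 : ∀ p ∈ op x, |mean d p (fun m => (Zp (f i) (g i) (w i) x p m).re)| + |mean d p (fun m => (Zp (f i) (g i) (w i) x p m).im)| ≤
        2 * ((n : ℝ) * n) * (1 / Real.sqrt p) := by
      intro p hp'
      rw [mem_op] at hp'
      have h4 := Zp_mean n (f i) (g i) (w i) (hF i) (hfg i).1 (hfg i).2.1 (hfg i).2.2 (hw i) x p hp'.2.1
      have hp1 : (1 : ℝ) ≤ p := by exact_mod_cast hp'.2.1.one_lt.le
      have hsq : Real.sqrt p ≤ p := by
        rw [Real.sqrt_le_left (by linarith)]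
        nlinarith
      have hsp : 0 < Real.sqrt p := Real.sqrt_pos.2 (by linarith)
      have h5 : (n : ℝ) * n / p ≤ (n : ℝ) * n * (1 / Real.sqrt p) := by
        rw [div_eq_mul_one_div]
        gcongr
      linarith [h4.1, h4.2]
    refine (sum_le_sum h3).trans ?_
    rw [← mul_sum]
    have h6 := sum_inv_sqrt x
    have h7 : 0 ≤ Real.sqrt x := Real.sqrt_nonneg _
    calc 2 * ((n : ℝ) * n) * ∑ p ∈ op x, 1 / Real.sqrt p ≤ 2 * ((n : ℝ) * n) * (2 * Real.sqrt x) := by gcongr
      _ ≤ 4 * ((n : ℝ) + 1) ^ 2 * Real.sqrt x := by nlinarith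
  · -- the variance
    intro x hx i _
    have hone : ∀ p ∈ op x, mean d p (fun m => ‖Zp (f i) (g i) (w i) x p m‖ ^ 2) ≤ ((n : ℝ) * (n + 1)) ^ 2 := by
      intro p hp'
      rw [mem_op] at hp'
      have h3 := mean_mono d p (fun m => ‖Zp (f i) (g i) (w i) x p m‖ ^ 2) (fun _ => ((n : ℝ) * (n + 1)) ^ 2) (fun m => by
        have := Zp_le n (f i) (g i) (w i) (hF i) (hfg i).1 (hfg i).2.1 (hfg i).2.2 (hw i) x p hp'.2.1 m
        gcongr)
      rwa [mean_const d p hp'.2.1.one_lt.le] at h3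
    refine (sum_le_sum hone).trans ?_
    rw [sum_const, nsmul_eq_mul]
    have h4 := cardop_le x
    have h5 : Real.sqrt x * Real.sqrt x = x := Real.mul_self_sqrt (Nat.cast_nonneg x)
    calc ((op x).card : ℝ) * ((n : ℝ) * (n + 1)) ^ 2 ≤ x * (((n : ℝ) + 1) * (n + 1)) ^ 2 := by
          gcongr
          linarith
      _ ≤ x * (4 * ((n : ℝ) + 1) ^ 2) ^ 2 := by
          have h6 : ((n : ℝ) + 1) * (n + 1) ≤ 4 * ((n : ℝ) + 1) ^ 2 := by nlinarith
          exact mul_le_mul_of_nonneg_left (pow_le_pow_left₀ (by positivity) h6 2) (Nat.cast_nonneg x)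
      _ = (4 * ((n : ℝ) + 1) ^ 2) ^ 2 * (Real.sqrt x * Real.sqrt x) := by
          rw [h5]
          ring
      _ = _ := by ring
  · -- the conclusion
    intro m hm x hyx hxr i hi τ hτ
    have hx2 : 2 ≤ x := by omega
    have hx0 : (0 : ℝ) < x := by exact_mod_cast (by omega : 0 < x)
    have hx1 : (1 : ℝ) ≤ x := by exact_mod_cast (by omega : 1 ≤ x)
    have hlx0 : 0 ≤ Real.log x := Real.log_natCast_nonneg x
    have hni : (finrank ℚ (F i) : ℝ) ≤ n := by exact_mod_cast hF i
    obtain ⟨T, hT⟩ : ∃ T : HeightOneSpectrum (𝓞 (F i)) → ℂ, T = fun v => if Good (f i) (g i) v then w i v * ((rootCount (f i) (g i) m v : ℂ) - 1) *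
      Complex.exp (((-(τ * Real.log (Ideal.absNorm v.asIdeal)) : ℝ) : ℂ) * Complex.I) else 0 := ⟨_, rfl⟩
    have e1 : partialSum (f i) (g i) m (w i) τ x = ∑ v ∈ pr (F i) x, T v := by
      have hset : {v : HeightOneSpectrum (𝓞 (F i)) | (Ideal.absNorm v.asIdeal ≤ x ∧ (2 : 𝓞 (F i)) ∉ v.asIdeal) ∧ Good (f i) (g i) v} =
          (((pr (F i) x).filter (fun v => Good (f i) (g i) v) : Finset (HeightOneSpectrum (𝓞 (F i)))) : Set (HeightOneSpectrum (𝓞 (F i)))) := by
        ext v
        rw [Finset.mem_coe, mem_filter, mem_pr]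
        rfl
      unfold partialSum
      rw [hset, finsum_mem_coe_finset, sum_filter]
      apply sum_congr rfl
      intro v _
      rw [hT]
    have e2 : ∀ p ∈ op x, ∑ v ∈ (pr (F i) x).filter (fun v => Ideal.absNorm v.asIdeal = p), T v =
        Zp (f i) (g i) (w i) x p m * hp τ p := by
      intro p hp'
      rw [mem_op] at hp'
      unfold Zp
      rw [sum_mul, sum_filter (s := (pr (F i) x).filter (fun v => Ideal.absNorm v.asIdeal = p))]
      apply sum_congr rfl
      intro v hv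
      rw [mem_filter] at hv
      rw [hT]
      simp only
      rw [hv.2]
      split_ifs <;> rfl
    have h3 := splitC (F := F i) x T (n + 1) (by
      intro v _
      rw [hT]
      simp only
      split_ifs
      · rw [norm_mul, Complex.norm_exp_ofReal_mul_I, mul_one]
        exact term_le n (f i) (g i) (w i) (hfg i).1 (hfg i).2.1 (hfg i).2.2 (hw i) m v
      · rw [norm_zero]
        positivity) (by positivity)
    rw [sum_congr rfl e2, ← e1] at h3
    have h4 := hm x hyx hxr i hi τ hτ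
    have hsq : (Nat.sqrt x : ℝ) ≤ Real.sqrt x := Real.nat_sqrt_le_real_sqrt
    have hs1 : 1 ≤ Real.sqrt x := Real.one_le_sqrt.2 hx1
    have h5 : (finrank ℚ (F i) : ℝ) * (Nat.sqrt x + 1) * (n + 1) ≤ 2 * n * (n + 1) * Real.sqrt x := by
      calc (finrank ℚ (F i) : ℝ) * (Nat.sqrt x + 1) * (n + 1) ≤ n * (Real.sqrt x + Real.sqrt x) * (n + 1) := by gcongr
        _ = _ := by ring
    have h6 := hx₁ x (by omega)
    have hpow : (x : ℝ) ^ (1 / 2 + δ) = Real.sqrt x * ((x : ℝ) ^ (δ / 2) * (x : ℝ) ^ (δ / 2)) := by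
      rw [← Real.rpow_add hx0, Real.sqrt_eq_rpow, ← Real.rpow_add hx0]
      congr 1
      ring
    have hge1 : (1 : ℝ) ≤ (x : ℝ) ^ (δ / 2) := Real.one_le_rpow hx1 (by positivity)
    calc ‖partialSum (f i) (g i) m (w i) τ x‖ ≤ ‖∑ p ∈ op x, Zp (f i) (g i) (w i) x p m * hp τ p‖ +
          ‖partialSum (f i) (g i) m (w i) τ x - ∑ p ∈ op x, Zp (f i) (g i) (w i) x p m * hp τ p‖ := norm_le_norm_add_norm_sub' _ _
      _ ≤ 4 * ((n : ℝ) + 1) ^ 2 * Real.sqrt x * (x : ℝ) ^ (δ / 2) + 2 * n * (n + 1) * Real.sqrt x := add_le_add h4 (h3.trans h5)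
      _ ≤ 4 * ((n : ℝ) + 1) ^ 2 * Real.sqrt x * (x : ℝ) ^ (δ / 2) + 2 * n * (n + 1) * Real.sqrt x * (x : ℝ) ^ (δ / 2) := by
          have : 0 ≤ 2 * (n : ℝ) * (n + 1) * Real.sqrt x := by positivity
          nlinarith
      _ = Real.sqrt x * ((4 * ((n : ℝ) + 1) ^ 2 + 2 * n * (n + 1)) * (x : ℝ) ^ (δ / 2)) := by ring
      _ ≤ Real.sqrt x * ((x : ℝ) ^ (δ / 2) * (x : ℝ) ^ (δ / 2)) := by
          have h7 : 4 * ((n : ℝ) + 1) ^ 2 + 2 * n * (n + 1) ≤ (x : ℝ) ^ (δ / 2) := by
            refine le_trans ?_ h6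
            have : 0 ≤ (4 * ((n : ℝ) + 1) ^ 2 + 2 * n * (n + 1)) * Real.log x := by positivity
            linarith
          gcongr
      _ = _ := hpow.symm

end Pool.Agent.Results.MP_9fc8a5_nt.FewDigitFields
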