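import Mathlib
import Pool.Agent.X21.Qd.De

/-!
# Quotients of Dedekind zeta functions inside `A_n`-extensions at zeros of order `< (n - 2)² / 18`

`Pool.Agent.H541R3.ART.ArtinData G s₀` is a family of functions with the formal properties of the
Artin L-functions of a Galois extension `K/k` with group `G` near a point `s₀ ≠ 1`: functions
`L χ` for the irreducible characters `χ` of `G` and `Lin H ψ` for the linear characters `ψ` of the
subgroups `H`, such that `L χ` is meromorphic and not identically zero near `s₀` (Brauer), `Lin H ψ`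
has no pole at `s₀` (Artin reciprocity and Hecke), and `Lin H ψ` is the product of the
`L χ ^ ⟨χ|_H, ψ⟩` (induction). In particular `Lin ⊥ 1` stands for the Dedekind zeta function of `K`
and `Lin H 1` for that of `K^H`.
-/

set_option autoImplicit false

open Pool.Agent.H541R3.ART Equiv MulAction

/-- Let `K/k` be a Galois extension with group `A_n`, `n ≥ 28`, and let the order `r` of `ζ_K` at
`s₀` satisfy `18 r < (n - 2)²`. There is a natural number `c` such that for all subgroups `U ≤ M`
of `A_n` with `|M|` prime to all primes `p` with `n < 2p + 2`: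
(1) the quotient `ζ_{K^U} / ζ_{K^M}` is holomorphic at `s₀`, of order
`c · (number of orbits of U - number of orbits of M)`, orbits on the `n` points;
(2) for every linear character `ρ` of `M`, the quotient of `L(s, ρ|_U, K/K^U)` by `L(s, ρ, K/K^M)` is
holomorphic at `s₀`. -/
theorem Pool.Agent.Results.MP_9fc8a5_nt.QuadraticRange.result :
    ∀ n : ℕ, 28 ≤ n → ∀ (s₀ : ℂ) (A : ArtinData (alternatingGroup (Fin n)) s₀) (r : ℕ),
      meromorphicOrderAt (A.Lin ⊥ 1) s₀ = (r : WithTop ℤ) → 18 * r < (n - 2) * (n - 2) →
    ∃ c : ℕ, ∀ (U M : Subgroup (alternatingGroup (Fin n))) (hUM : U ≤ M),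
      (∀ p : ℕ, p.Prime → n < 2 * p + 2 → ¬ p ∣ Nat.card M) →
      meromorphicOrderAt (A.Lin U 1) s₀ = meromorphicOrderAt (A.Lin M 1) s₀ +
        ((c * (Nat.card (orbitRel.Quotient U (Fin n)) - Nat.card (orbitRel.Quotient M (Fin n))) : ℕ)
          : WithTop ℤ) ∧
      ∀ ρ : M →* ℂˣ, meromorphicOrderAt (A.Lin M ρ) s₀
        ≤ meromorphicOrderAt (A.Lin U (ρ.comp (Subgroup.inclusion hUM))) s₀ := by
  intro n hn s₀ A r hr hlt
  exact Pool.Agent.X21.Qd.ded_quad hn A hr hlt
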