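import Pool.Agent.X287.CR6

/-!
# Quotients of Dedekind zeta functions and rotated sums over prime ideals

For a number field `F`, a point `s₀` with `Re s₀ ≥ 0` and a fixed angle `γ > π/2` let

`S_F(s₀; T) = - ∑_𝔭 ∑_{k ≥ 1} N𝔭^{-k s₀} exp(iγ k log N𝔭 / T) / (k Γ(1 + k log N𝔭 / T))`,  `T > 0`,

an absolutely convergent sum over the powers of the prime ideals of `F`. Let `Z_F` denote the meromorphic continuation
of `ζ_F` (Hecke); it enters as a function which is equal to the Euler product for `Re s > 1` and meromorphic at all points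
with `Re s ≥ 0`. No hypothesis on zeros is made. Then, for ALL finite extensions `L/K` of number fields:

1. `S_F(s₀; T) = m (log T - Λ(γ)) - r + O(1/T)`, `m` being the order of `ζ_F` at `s₀` and `exp(r)` its leading coefficient:
   the multiplicity of every zero is `m = lim Re S_F(s₀; T) / log T`.
2. `ord_{s₀} (ζ_L / ζ_K) = lim Re (S_L(s₀; T) - S_K(s₀; T)) / log T`.
3. `ζ_L / ζ_K` has no pole at `s₀` if and only if `Re (S_L(s₀; T) - S_K(s₀; T))` is bounded from below as `T → ∞`; it has a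
   pole at `s₀` if and only if `Re (S_L(s₀; T) - S_K(s₀; T)) → -∞`; and `ζ_L`, `ζ_K` have the same order at `s₀` if and only
   if `Re (S_L(s₀; T) - S_K(s₀; T))` is bounded.
4. `ζ_L / ζ_K` is free of poles in the half plane `Re s ≥ 0` if and only if for every `s₀` with `0 ≤ Re s₀ ≤ 1` the
   function `Re (S_L(s₀; T) - S_K(s₀; T))` is bounded from below as `T → ∞`.

For `Re s < 0` the only zeros of `ζ_K` are the trivial ones, which are zeros of `ζ_L` of at least the same order. So by 4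
the problem is equivalent, for every extension `L/K`, to one-sided bounds for absolutely convergent sums over prime ideals.
The difference `S_L - S_K` is the sum over the prime powers `𝔭^k` of `K` with the weights `fix(Frob_𝔭^k) - 1`, where `fix`
is the number of fixed points on the `K`-embeddings of `L` (`𝔭` unramified).

Proof: the rotated law for series with complex coefficients, `Pool.Agent.X287.CR`.
-/

set_option autoImplicit false

open Filter Topology Asymptotics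
open IsDedekindDomain NumberField

namespace Pool.Agent.Results.MP_9fc8a5_nt.RotatedPrimeSums

/-- The term of `S_F(s₀; T)` for the prime ideal `x.1` and the exponent `k = x.2 + 1`. -/
noncomputable def term (F : Type) [Field F] [NumberField F] (s₀ : ℂ) (γ T : ℝ)
    (x : HeightOneSpectrum (𝓞 F) × ℕ) : ℂ :=
  -((Ideal.absNorm x.1.asIdeal : ℂ) ^ (-s₀)) ^ (x.2 + 1) *
      Complex.exp ((γ * ((x.2 + 1) * Real.log (Ideal.absNorm x.1.asIdeal : ℕ) / T) : ℝ) * Complex.I) /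
    (((x.2 + 1) * Real.Gamma (1 + (x.2 + 1) * Real.log (Ideal.absNorm x.1.asIdeal : ℕ) / T) : ℝ) : ℂ)

/-- The sum `S_F(s₀; T)`. -/
noncomputable def S (F : Type) [Field F] [NumberField F] (s₀ : ℂ) (γ T : ℝ) : ℂ :=
  ∑' x, term F s₀ γ T x

/-- The constant `Λ(γ) = ∫_0^∞ (e^{-t} - e^{iγt} / Γ(1 + t)) dt / t`. -/
noncomputable def Lambda (γ : ℝ) : ℂ := ∫ t in Set.Ioi (0 : ℝ),
  (Complex.exp (-(t : ℂ)) - Complex.exp ((γ * t : ℝ) * Complex.I) * ((Real.Gamma (1 + t))⁻¹ : ℝ)) / t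

/-- `Z` is the Dedekind zeta function of `F` for `Re s > 1`, continued to a function which is meromorphic at all points
with `Re s ≥ 0`. -/
structure IsZeta (F : Type) [Field F] [NumberField F] (Z : ℂ → ℂ) : Prop where
  prod : ∀ s : ℂ, 1 < s.re → HasProd
    (fun v : HeightOneSpectrum (𝓞 F) => (1 - (Ideal.absNorm v.asIdeal : ℂ) ^ (-s))⁻¹) (Z s)
  mero : ∀ s : ℂ, 0 ≤ s.re → MeromorphicAt Z s

/-- The quotient `Z_L / Z_K` has no pole at `s`. -/
def NoPole (ZL ZK : ℂ → ℂ) (s : ℂ) : Prop := 0 ≤ meromorphicOrderAt (ZL / ZK) s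

/-- the roots -/
def one (F : Type) [Field F] [NumberField F] : HeightOneSpectrum (𝓞 F) → Fin 1 → ℂ := fun _ _ => 1

/-- the norms -/
noncomputable def q (F : Type) [Field F] [NumberField F] (v : HeightOneSpectrum (𝓞 F)) : ℕ :=
  Ideal.absNorm v.asIdeal

open Pool.Agent.X287.CR in
theorem sys (F : Type) [Field F] [NumberField F] : CSys 0 (q F) (one F) :=
  nf_all (one F) fun v i => by simp [one]

open Pool.Agent.X287.CR in
theorem tm_eq (F : Type) [Field F] [NumberField F] (s₀ : ℂ) (γ T : ℝ)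
    (x : HeightOneSpectrum (𝓞 F) × ℕ) : tm (q F) (one F) s₀ γ T x = term F s₀ γ T x := by
  unfold tm term lam
  have e1 : ∑ i, one F x.1 i ^ (x.2 + 1) = 1 := by simp [one]
  have e2 : Complex.exp (-(s₀ * (((x.2 + 1) * Real.log (q F x.1) : ℝ) : ℂ))) =
      ((q F x.1 : ℂ) ^ (-s₀)) ^ (x.2 + 1) := by
    rw [(sys F).cpow_eq, ← Complex.exp_nat_mul]
    congr 1
    push_cast
    ring
  rw [e1, e2]
  have e3 : -(1 : ℂ) * ((q F x.1 : ℂ) ^ (-s₀)) ^ (x.2 + 1) = -((q F x.1 : ℂ) ^ (-s₀)) ^ (x.2 + 1) := by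
    ring
  rw [e3]
  rfl

open Pool.Agent.X287.CR in
theorem law (F : Type) [Field F] [NumberField F] {Z : ℂ → ℂ} (hZ : IsZeta F Z) {γ : ℝ}
    (hγ : Real.pi / 2 < γ) {s₀ : ℂ} (hs₀ : 0 ≤ s₀.re) : ∃ (m : ℤ) (r₀ : ℂ),
    meromorphicOrderAt Z s₀ = m ∧ meromorphicTrailingCoeffAt Z s₀ = Complex.exp r₀ ∧
      Asy (Lambda γ) (S F s₀ γ) m r₀ := by
  obtain ⟨m, r₀, h1, h2, h3⟩ := (sys F).law (L := Z) (fun s hs => by
    have := hZ.prod s (by linarith)
    unfold fac one
    simpa only [one_mul, Finset.univ_unique, Finset.prod_singleton, q] using this) (s₀ := s₀) hs₀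
    (fun x hx0 hx1 => hZ.mero _ (by
        rw [Complex.add_re, Complex.ofReal_re]
        linarith)) hγ
  refine ⟨m, r₀, h1, h2, ?_⟩
  have hSu : ∀ T, Su (q F) (one F) s₀ γ T = S F s₀ γ T := fun T =>
    tsum_congr fun x => tm_eq F s₀ γ T x
  simp only [hSu] at h3
  exact h3

open Pool.Agent.X287.CR in
/-- **Quotients of Dedekind zeta functions and rotated sums over prime ideals.** -/
theorem result (K L : Type) [Field K] [NumberField K] [Field L] [NumberField L] [Algebra K L]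
    (ZK ZL : ℂ → ℂ) (hK : IsZeta K ZK) (hL : IsZeta L ZL) (γ : ℝ) (hγ : Real.pi / 2 < γ) :
    -- 1. the law for one field, with absolute convergence
    (∀ s₀ : ℂ, 0 ≤ s₀.re → (∀ T : ℝ, 0 < T → Summable fun x => ‖term K s₀ γ T x‖) ∧
      ∃ (m : ℤ) (r : ℂ), meromorphicOrderAt ZK s₀ = m ∧
        meromorphicTrailingCoeffAt ZK s₀ = Complex.exp r ∧
        (fun T : ℝ => S K s₀ γ T - (m * (Real.log T - Lambda γ) - r)) =O[atTop] (fun T : ℝ => 1 / T)) ∧
    ∀ s₀ : ℂ, 0 ≤ s₀.re →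
      -- 2. the order of the quotient
      (∀ r : ℤ, meromorphicOrderAt (ZL / ZK) s₀ = r ↔
        Tendsto (fun T : ℝ => (S L s₀ γ T - S K s₀ γ T).re / Real.log T) atTop (𝓝 (r : ℝ))) ∧
      -- 3. poles
      (NoPole ZL ZK s₀ ↔ ∃ C : ℝ, ∀ᶠ T : ℝ in atTop, C ≤ (S L s₀ γ T - S K s₀ γ T).re) ∧
      (¬ NoPole ZL ZK s₀ ↔ Tendsto (fun T : ℝ => (S L s₀ γ T - S K s₀ γ T).re) atTop atBot) ∧
      (meromorphicOrderAt ZL s₀ = meromorphicOrderAt ZK s₀ ↔
        ∃ C : ℝ, ∀ᶠ T : ℝ in atTop, |(S L s₀ γ T - S K s₀ γ T).re| ≤ C) ∧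
      -- 4. the half plane
      ((∀ s : ℂ, 0 ≤ s.re → NoPole ZL ZK s) ↔ ∀ s : ℂ, 0 ≤ s.re → s.re ≤ 1 →
        ∃ C : ℝ, ∀ᶠ T : ℝ in atTop, C ≤ (S L s γ T - S K s γ T).re) := by
  have hq : ∀ s₀ : ℂ, 0 ≤ s₀.re → ∃ (mL mK : ℤ) (r : ℂ), meromorphicOrderAt ZL s₀ = mL ∧
      meromorphicOrderAt ZK s₀ = mK ∧ meromorphicOrderAt (ZL / ZK) s₀ = ((mL - mK : ℤ) : WithTop ℤ) ∧
      Asy (Lambda γ) (fun T => S L s₀ γ T - S K s₀ γ T) (mL - mK) r := by
    intro s₀ hs₀
    obtain ⟨mK, rK, k1, k2, k3⟩ := law K hK hγ hs₀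
    obtain ⟨mL, rL, l1, l2, l3⟩ := law L hL hγ hs₀
    refine ⟨mL, mK, rL - rK, l1, k1, ?_, l3.sub k3⟩
    rw [div_eq_mul_inv, meromorphicOrderAt_mul (hL.mero s₀ hs₀) (hK.mero s₀ hs₀).inv,
      meromorphicOrderAt_inv, l1, k1]
    exact_mod_cast (sub_eq_add_neg mL mK).symm
  have hpole : ∀ s₀ : ℂ, 0 ≤ s₀.re → (NoPole ZL ZK s₀ ↔
      ∃ C : ℝ, ∀ᶠ T : ℝ in atTop, C ≤ (S L s₀ γ T - S K s₀ γ T).re) := by
    intro s₀ hs₀
    obtain ⟨mL, mK, r, -, -, h3, h4⟩ := hq s₀ hs₀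
    rw [← h4.nonneg_iff]
    unfold NoPole
    rw [h3]
    exact_mod_cast Iff.rfl
  refine ⟨fun s₀ hs₀ => ⟨fun T hT => ?_, ?_⟩, fun s₀ hs₀ => ⟨fun r => ?_, hpole s₀ hs₀, ?_, ?_, ?_⟩⟩
  · have h1 := (sys K).tm_summable (s₀ := s₀) hs₀ γ hT
    simpa only [tm_eq] using h1
  · exact law K hK hγ hs₀
  · obtain ⟨mL, mK, r', -, -, h3, h4⟩ := hq s₀ hs₀
    rw [h3, ← h4.order_iff r]
    exact_mod_cast Iff.rfl
  · obtain ⟨mL, mK, r, -, -, h3, h4⟩ := hq s₀ hs₀
    rw [← h4.neg_iff]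
    unfold NoPole
    rw [h3, not_le]
    exact_mod_cast Iff.rfl
  · obtain ⟨mL, mK, r, h1, h2, h3, h4⟩ := hq s₀ hs₀
    rw [← h4.zero_iff, h1, h2, sub_eq_zero]
    exact_mod_cast Iff.rfl
  · constructor
    · intro h s h1 h2
      exact (hpole s h1).1 (h s h1)
    · intro h s h1
      by_cases h2 : s.re ≤ 1
      · exact (hpole s h1).2 (h s h1 h2)
      · push Not at h2
        have ha : ∀ (F : Type) [Field F] [NumberField F] {Z : ℂ → ℂ}, IsZeta F Z →
            meromorphicOrderAt Z s = 0 := by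
          intro F _ _ Z hZ
          have := (sys F).an_right (L := Z) (fun s hs => by
            have := hZ.prod s (by linarith)
            unfold fac one
            simpa only [one_mul, Finset.univ_unique, Finset.prod_singleton, q] using this)
            (s := s) (by linarith)
          rw [this.1.meromorphicOrderAt_eq, this.1.analyticOrderAt_eq_zero.2 this.2]
          rfl
        unfold NoPole
        rw [div_eq_mul_inv, meromorphicOrderAt_mul (hL.mero s h1) (hK.mero s h1).inv,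
          meromorphicOrderAt_inv, ha L hL, ha K hK]
        simp

end Pool.Agent.Results.MP_9fc8a5_nt.RotatedPrimeSums
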