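import Mathlib
import Pool.Agent.X21.Sy.Ded

/-!
# Quotients of Dedekind zeta functions inside `S_n`-extensions at zeros of small order

`Pool.Agent.H541R3.ART.ArtinData G s₀` is a family of functions with the formal properties of the
Artin L-functions of a Galois extension `E/K` with group `G` near a point `s₀ ≠ 1`: functions
`L χ` for the irreducible characters `χ` of `G`, meromorphic and not identically zero near `s₀`
(Brauer), and `Lin H ψ` for the linear characters `ψ` of the subgroups `H`, without pole at `s₀`
(Artin reciprocity and Hecke), such that `Lin H ψ` is the product of the `L χ ^ ⟨χ|_H, ψ⟩`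
(induction). In particular `Lin H 1` stands for the Dedekind zeta function of the fixed field of
`H`.

`Pool.Agent.X21.Sy.stabA a` is the subgroup of the even permutations which fix `a`.

`Pool.Agent.X21.Sy.AltOr r S` says that the finite group `S` is isomorphic to `A_n` for some
`n ≥ 14` with `r < n - 1`, and with `r < n - 2` if `n` is prime (`AltFac r S`), or is in the list
`Pool.Agent.TH820.FacO r S` of the starting library (groups of Lie type of large rank, and all
groups on which every Heilbronn function of degree at most `r` is constant).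

`Pool.Agent.TH820.BuiltC r P N` (starting library) says that the normal subgroup `N` of `G` is
obtained from the trivial subgroup by finitely many steps `M ≤ N` of two kinds: `N / M` is normal in
`G / M` and generated by finitely many pairwise commuting subgroups, each a homomorphic image of a
finite group `S` with `P S`; or `N / M` is abelian and every nontrivial linear character of `N / M`
has more than `r` conjugates under `G / M`. `Pool.Agent.TH820.BuiltSC P N` is the same with all
abelian steps allowed.
-/

set_option autoImplicit false

open Pool.Agent.H541R3.ART Pool.Agent.X21.Sy Equiv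

/-- (1) Let `E/K` be a Galois extension with group `G`, `A_n ≤ G ≤ S_n`, `n ≥ 14`, and let the order
`r` of `ζ_E` at `s₀` be less than `n - 1`, and less than `n - 2` if `n` is prime. Then for all
intermediate fields `F ⊆ L` of `E/K` the order of `ζ_F` at `s₀` is at most that of `ζ_L`; more
generally this holds for the L-functions of a linear character `ρ` over `F` and of its restriction
over `L`.
(2) In prime degree `n = p ≥ 5` the bound cannot be improved by the formal properties of the
L-functions: there are functions with these properties for `S_p` such that `ζ_E` has order `p - 2`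
at `s₀` and `ζ_L / ζ_F` has a pole at `s₀`, where `F` is the fixed field of `A_p` and `L/F` the
extension of degree `p` belonging to the stabiliser of a point.
(3) The same conclusion for every Galois group `G`, with a normal subgroup `N` and a subgroup `M`
(the group of `E/F`) such that `N` and `M / (M ∩ N)` are built from such alternating groups, groups
`FacO`, and abelian groups. -/
theorem Pool.Agent.Results.MP_9fc8a5_nt.SharpSymmetric.result :
    (∀ n : ℕ, 14 ≤ n → ∀ G : Subgroup (Perm (Fin n)), alternatingGroup (Fin n) ≤ G →
      ∀ (s₀ : ℂ) (A : ArtinData G s₀) (r : ℕ),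
      meromorphicOrderAt (A.Lin ⊥ 1) s₀ = (r : WithTop ℤ) → r + 1 < n → (n.Prime → r + 2 < n) →
      ∀ (U M : Subgroup G) (hUM : U ≤ M) (ρ : M →* ℂˣ),
        meromorphicOrderAt (A.Lin M ρ) s₀
          ≤ meromorphicOrderAt (A.Lin U (ρ.comp (Subgroup.inclusion hUM))) s₀) ∧
    (∀ p : ℕ, p.Prime → 5 ≤ p → ∀ (s₀ : ℂ) (a : Fin p), ∃ A : ArtinData (Perm (Fin p)) s₀,
      meromorphicOrderAt (A.Lin ⊥ 1) s₀ = ((p - 2 : ℕ) : WithTop ℤ) ∧
      meromorphicOrderAt (A.Lin (stabA a) 1) s₀
        < meromorphicOrderAt (A.Lin (alternatingGroup (Fin p)) 1) s₀) ∧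
    (∀ (G : Type) [Group G] [Finite G] (s₀ : ℂ) (A : ArtinData G s₀) (r : ℕ),
      meromorphicOrderAt (A.Lin ⊥ 1) s₀ = (r : WithTop ℤ) → ∀ (N : Subgroup G) [N.Normal],
      Pool.Agent.TH820.BuiltC r (fun S [Group S] => AltOr r S) N →
      ∀ (U M : Subgroup G) (hUM : U ≤ M),
      Pool.Agent.TH820.BuiltSC (fun S [Group S] => AltOr r S)
        (⊤ : Subgroup (M ⧸ N.subgroupOf M)) → ∀ ρ : M →* ℂˣ,
      meromorphicOrderAt (A.Lin M ρ) s₀
        ≤ meromorphicOrderAt (A.Lin U (ρ.comp (Subgroup.inclusion hUM))) s₀) := by
  refine ⟨fun n hn G hG s₀ A r hr h1 h2 U M hUM ρ => ded_sharp hn G hG A hr h1 h2 U M hUM ρ, ?_,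
    fun G _ _ s₀ A r hr N _ hN U M hUM hM ρ => ded_built A hr N hN U M hUM hM ρ⟩
  intro p hp h5 s₀ a
  have : Fact p.Prime := ⟨hp⟩
  exact ded_barrier (α := Fin p) (Fintype.card_fin p) h5 s₀ a
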